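import Pool.Agent.W317.CT.Stm

/-!
# CT-ALG: linear algebra from a bi-Lipschitz homomorphism
-/

set_option autoImplicit false

namespace Pool.Agent.W312.CT

open Pool.Agent.W317.CT

/-- a nonnegative number all of whose multiples are bounded vanishes -/
lemma eq_zero_of_mul_bdd {a C : ℝ} (ha : 0 ≤ a) (h : ∀ n : ℕ, (n : ℝ) * a ≤ C) : a = 0 := by
  by_contra hne
  have hpos : 0 < a := lt_of_le_of_ne ha (Ne.symm hne)
  obtain ⟨n, hn⟩ := exists_nat_gt (C / a)
  have h1 := h n
  rw [div_lt_iff₀ hpos] at hn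
  linarith

theorem alg : S_ALG := by
  intro b b' F K hK hB hH
  have h0 : F 0 = 0 := by
    have h := hH 0 0
    rw [zero_mul'] at h
    apply mul_left_cancel' b' (g := F 0)
    rw [← h, mul_zero']
  have hup : ∀ g, N (F g) ≤ K * N g := by
    intro g
    have h := (hB 0 g).2
    rwa [h0, d_zero_left, d_zero_left] at h
  have hlo : ∀ g, N g / K ≤ N (F g) := by
    intro g
    have h := (hB 0 g).1
    rwa [h0, d_zero_left, d_zero_left] at h
  have hz : ∀ g, F g = 0 → g = 0 := by
    intro g hg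
    have h := hlo g
    rw [hg, N_zero] at h
    apply N_eq_zero
    have h2 : N g / K = 0 := le_antisymm h (div_nonneg (N_nonneg g) hK.le)
    rcases div_eq_zero_iff.mp h2 with h3 | h3
    · exact h3
    · exact absurd h3 hK.ne'
  have hinv : ∀ g, F (inv g) = inv (F g) := by
    intro g
    apply mul_left_cancel' b' (g := F g)
    rw [← hH, mul_inv', mul_inv', h0]
  -- the centre
  have hc : ∀ u v : W, mul b (0, u) (0, v) = (0, u + v) := by
    intro u v
    simp [mul]
  let f : W →+ E :=
    { toFun := fun u => (F (0, u)).1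
      map_zero' := by
        show (F (0, 0)).1 = 0
        have : ((0, 0) : E × W) = 0 := rfl
        rw [this, h0]
        rfl
      map_add' := by
        intro u v
        show (F (0, u + v)).1 = (F (0, u)).1 + (F (0, v)).1
        rw [← hc, hH]
        rfl }
  have hf : ∀ u, (F (0, u)).1 = 0 := by
    intro u
    have hb : ∀ v : W, ‖f v‖ ^ 2 ≤ K ^ 2 * ‖v‖ := by
      intro v
      have h1 : ‖f v‖ ≤ K * N ((0, v) : E × W) := (norm_fst_le_N _).trans (hup _)
      have h2 : N ((0, v) : E × W) = Real.sqrt ‖v‖ := by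
        simp only [N, norm_zero]
        exact max_eq_right (Real.sqrt_nonneg _)
      rw [h2] at h1
      calc ‖f v‖ ^ 2 ≤ (K * Real.sqrt ‖v‖) ^ 2 := pow_le_pow_left₀ (norm_nonneg _) h1 2
        _ = K ^ 2 * ‖v‖ := by rw [mul_pow, Real.sq_sqrt (norm_nonneg _)]
    have h3 : ‖f u‖ ^ 2 = 0 := by
      apply eq_zero_of_mul_bdd (C := K ^ 2 * ‖u‖) (by positivity)
      intro n
      rcases Nat.eq_zero_or_pos n with hn | hn
      · subst hn
        simp only [Nat.cast_zero, zero_mul]
        positivity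
      · have h4 := hb (n • u)
        rw [map_nsmul, ← Nat.cast_smul_eq_nsmul ℝ, ← Nat.cast_smul_eq_nsmul ℝ, norm_smul, norm_smul]
          at h4
        simp only [Real.norm_natCast] at h4
        have hn' : (0 : ℝ) < n := by exact_mod_cast hn
        have h5 : (n : ℝ) * ((n : ℝ) * ‖f u‖ ^ 2) ≤ (n : ℝ) * (K ^ 2 * ‖u‖) := by nlinarith
        exact le_of_mul_le_mul_left h5 hn'
    have h4 : ‖f u‖ = 0 := by
      exact pow_eq_zero_iff (two_ne_zero) |>.mp h3
    exact norm_eq_zero.mp h4
  let T0 : W →+ W :=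
    { toFun := fun u => (F (0, u)).2
      map_zero' := by
        show (F (0, 0)).2 = 0
        have : ((0, 0) : E × W) = 0 := rfl
        rw [this, h0]
        rfl
      map_add' := by
        intro u v
        show (F (0, u + v)).2 = (F (0, u)).2 + (F (0, v)).2
        rw [← hc, hH]
        simp only [mul, hf, map_zero, add_zero] }
  have hFT : ∀ u, F (0, u) = (0, T0 u) := fun u => Prod.ext (hf u) rfl
  have hTb : ∀ u, ‖T0 u‖ ≤ K ^ 2 * ‖u‖ := by
    intro u
    have h1 : ‖T0 u‖ ≤ N (F (0, u)) ^ 2 := norm_snd_le_N _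
    have h2 : N ((0, u) : E × W) = Real.sqrt ‖u‖ := by
      simp only [N, norm_zero]
      exact max_eq_right (Real.sqrt_nonneg _)
    have h3 := hup (0, u)
    rw [h2] at h3
    calc ‖T0 u‖ ≤ N (F (0, u)) ^ 2 := h1
      _ ≤ (K * Real.sqrt ‖u‖) ^ 2 := pow_le_pow_left₀ (N_nonneg _) h3 2
      _ = K ^ 2 * ‖u‖ := by rw [mul_pow, Real.sq_sqrt (norm_nonneg _)]
  let T : W →L[ℝ] W := T0.toRealLinearMap (AddMonoidHomClass.continuous_of_bound T0 (K ^ 2) hTb)
  have hT : ∀ u, T u = T0 u := fun u => rfl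
  -- the horizontal layer
  have hN1 : ∀ x : E, N ((x, 0) : E × W) = ‖x‖ := by
    intro x
    simp only [N, norm_zero, Real.sqrt_zero]
    exact max_eq_left (norm_nonneg _)
  have hh : ∀ x y : E, mul b (x, 0) (y, 0) = mul b (x + y, 0) (0, b.B x y) := by
    intro x y
    simp [mul]
  let A0 : E →+ E :=
    { toFun := fun x => (F (x, 0)).1
      map_zero' := by
        show (F (0, 0)).1 = 0
        have : ((0, 0) : E × W) = 0 := rfl
        rw [this, h0]
        rfl
      map_add' := by
        intro x y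
        show (F (x + y, 0)).1 = (F (x, 0)).1 + (F (y, 0)).1
        have h1 := congrArg (fun g => (F g).1) (hh x y)
        simp only [hH] at h1
        simp only [mul, hf, add_zero] at h1
        exact h1.symm }
  have hAb : ∀ x, ‖A0 x‖ ≤ K * ‖x‖ := by
    intro x
    have h1 : ‖A0 x‖ ≤ N (F (x, 0)) := norm_fst_le_N _
    have h2 := hup (x, 0)
    rw [hN1] at h2
    exact h1.trans h2
  let A : E →L[ℝ] E := A0.toRealLinearMap (AddMonoidHomClass.continuous_of_bound A0 K hAb)
  have hA : ∀ x, A x = (F (x, 0)).1 := fun x => rfl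
  refine ⟨A.toLinearMap, T.toLinearMap, ?_, ?_, ?_⟩
  · rw [injective_iff_map_eq_zero]
    intro x hx
    have hx' : A x = 0 := hx
    have hAt : ∀ t : ℝ, (F (t • x, 0)).1 = 0 := by
      intro t
      rw [← hA, map_smul, hx', smul_zero]
    let w : ℝ →+ W :=
      { toFun := fun t => (F (t • x, 0)).2
        map_zero' := by
          show (F ((0 : ℝ) • x, 0)).2 = 0
          rw [zero_smul]
          have : ((0, 0) : E × W) = 0 := rfl
          rw [this, h0]
          rfl
        map_add' := by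
          intro s t
          show (F ((s + t) • x, 0)).2 = (F (s • x, 0)).2 + (F (t • x, 0)).2
          have h1 : (((s + t) • x, 0) : E × W) = mul b (s • x, 0) (t • x, 0) := by
            simp [mul, add_smul, b.alt]
          rw [h1, hH]
          simp only [mul, hAt, map_zero, add_zero] }
    have hwb : ∀ t : ℝ, ‖w t‖ ≤ K ^ 2 * (t ^ 2 * ‖x‖ ^ 2) := by
      intro t
      have h1 : ‖w t‖ ≤ N (F (t • x, 0)) ^ 2 := norm_snd_le_N _
      have h3 := hup (t • x, 0)
      rw [hN1] at h3
      calc ‖w t‖ ≤ N (F (t • x, 0)) ^ 2 := h1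
        _ ≤ (K * ‖t • x‖) ^ 2 := pow_le_pow_left₀ (N_nonneg _) h3 2
        _ = K ^ 2 * (t ^ 2 * ‖x‖ ^ 2) := by
          rw [mul_pow, norm_smul, mul_pow, Real.norm_eq_abs, sq_abs]
    have hw1 : ‖w 1‖ = 0 := by
      apply eq_zero_of_mul_bdd (C := K ^ 2 * ‖x‖ ^ 2) (norm_nonneg _)
      intro n
      rcases Nat.eq_zero_or_pos n with hn | hn
      · subst hn
        simp only [Nat.cast_zero, zero_mul]
        positivity
      · have hn' : (0 : ℝ) < n := by exact_mod_cast hn
        have h4 : w 1 = n • w (1 / n) := by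
          rw [← map_nsmul]
          congr 1
          rw [nsmul_eq_mul]
          field_simp
        have h5 := hwb (1 / n)
        have h6 : ‖w 1‖ = n * ‖w (1 / n)‖ := by
          rw [h4, ← Nat.cast_smul_eq_nsmul ℝ, norm_smul, Real.norm_natCast]
        rw [h6]
        have h7 : (n : ℝ) * (n * (K ^ 2 * ((1 / n) ^ 2 * ‖x‖ ^ 2))) = K ^ 2 * ‖x‖ ^ 2 := by
          field_simp
        calc (n : ℝ) * (n * ‖w (1 / n)‖) ≤ (n : ℝ) * (n * (K ^ 2 * ((1 / n) ^ 2 * ‖x‖ ^ 2))) := by
              gcongr
          _ = _ := h7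
    have hFx : F (x, 0) = 0 := by
      apply Prod.ext
      · exact hx'
      · have h8 : w 1 = 0 := norm_eq_zero.mp hw1
        have h9 : w 1 = (F (x, 0)).2 := by
          show (F ((1 : ℝ) • x, 0)).2 = _
          rw [one_smul]
        rw [← h9, h8]
        rfl
    have := hz _ hFx
    exact congrArg Prod.fst this
  · rw [injective_iff_map_eq_zero]
    intro u hu
    have hu' : T0 u = 0 := hu
    have h1 : F (0, u) = 0 := by
      rw [hFT, hu']
      rfl
    have := hz _ h1
    exact congrArg Prod.snd this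
  · intro x y
    have h1 := congrArg F (comm_eq b ((x, 0) : E × W) (y, 0))
    rw [hH, hH, hH, hinv, hinv, comm_eq, hFT] at h1
    have h2 := congrArg Prod.snd h1
    simp only at h2
    have h3 : T ((2 : ℝ) • b.B x y) = (2 : ℝ) • T (b.B x y) := map_smul _ _ _
    rw [← hT, h3] at h2
    exact (smul_right_injective W (two_ne_zero : (2 : ℝ) ≠ 0) h2).symm

end Pool.Agent.W312.CT
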