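import Pool.Agent.W317.CT.Stm

/-!
# CT-ASD: finite asymptotic dimension of the integer nets
-/

set_option autoImplicit false

namespace Pool.Agent.W312.CT

open Pool.Agent.W317.CT

/-- the integer points in a ball of radius two -/
def Ball2 (b : Form) (p : E × W) : Set V := {i | d b p (iota i) ≤ 2}

/-- a finite type of relative positions -/
abbrev TT : Type := (Fin 8 → Fin 5) × (Fin 2 → Fin 9)

/-- first coordinates of the relative position -/
noncomputable def rel1 (p : E × W) (i : V) (k : Fin 8) : ℤ := i.1 k - ⌈p.1 k - 2⌉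

/-- second coordinates of the relative position -/
noncomputable def rel2 (b : Form) (p : E × W) (i : V) (k : Fin 2) : ℤ :=
  i.2 k - ⌈p.2 k + b.B p.1 (iota i).1 k - 4⌉

/-- relative position of an integer point -/
noncomputable def rel (b : Form) (p : E × W) (i : V) : TT :=
  (fun k => ⟨(rel1 p i k).toNat % 5, Nat.mod_lt _ (by norm_num)⟩,
    fun k => ⟨(rel2 b p i k).toNat % 9, Nat.mod_lt _ (by norm_num)⟩)

lemma ceil_aux {z : ℤ} {a r : ℝ} {m : ℤ} (h1 : a - r ≤ z) (h2 : (z : ℝ) ≤ a + r)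
    (hm : (m : ℝ) = 2 * r) : 0 ≤ z - ⌈a - r⌉ ∧ z - ⌈a - r⌉ ≤ m := by
  constructor
  · have := Int.ceil_le.mpr h1
    omega
  · have h3 : a - r ≤ ⌈a - r⌉ := Int.le_ceil _
    have h4 : (z : ℝ) ≤ ((⌈a - r⌉ + m : ℤ) : ℝ) := by
      push_cast
      linarith
    have h5 : z ≤ ⌈a - r⌉ + m := by exact_mod_cast h4
    omega

lemma rel1_mem (p : E × W) {i : V} (h1 : ‖(iota i).1 - p.1‖ ≤ 2) (k : Fin 8) :
    0 ≤ rel1 p i k ∧ rel1 p i k ≤ 4 := by
  have h3 : |((iota i).1 - p.1) k| ≤ 2 := (norm_le_pi_norm ((iota i).1 - p.1) k).trans h1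
  have h4 := abs_le.mp h3
  simp only [Pi.sub_apply, iota] at h4
  exact ceil_aux (r := 2) (m := 4) (by linarith) (by linarith) (by norm_num)

lemma rel2_mem (b : Form) (p : E × W) {i : V}
    (h2 : ‖(iota i).2 - p.2 - b.B p.1 (iota i).1‖ ≤ 2 ^ 2) (k : Fin 2) :
    0 ≤ rel2 b p i k ∧ rel2 b p i k ≤ 8 := by
  have h3 : |((iota i).2 - p.2 - b.B p.1 (iota i).1) k| ≤ 4 := by
    have := (norm_le_pi_norm ((iota i).2 - p.2 - b.B p.1 (iota i).1) k).trans h2
    rw [Real.norm_eq_abs] at this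
    linarith
  have h4 := abs_le.mp h3
  simp only [Pi.sub_apply] at h4
  have h5 : (iota i).2 k = (i.2 k : ℝ) := rfl
  rw [h5] at h4
  exact ceil_aux (r := 4) (m := 8) (by linarith) (by linarith) (by norm_num)

lemma ball2_norms (b : Form) (p : E × W) {i : V} (hi : i ∈ Ball2 b p) :
    ‖(iota i).1 - p.1‖ ≤ 2 ∧ ‖(iota i).2 - p.2 - b.B p.1 (iota i).1‖ ≤ 2 ^ 2 := by
  have h : d b p (iota i) ≤ 2 := hi
  rw [d_eq, max_le_iff] at h
  have h2 := h.2
  rw [Real.sqrt_le_left (by norm_num)] at h2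
  exact And.intro h.1 h2

lemma rel_injOn (b : Form) (p : E × W) : Set.InjOn (rel b p) (Ball2 b p) := by
  intro i hi j hj hij
  have hi' := ball2_norms b p hi
  have hj' := ball2_norms b p hj
  have h1 : i.1 = j.1 := by
    funext k
    have h3 := congrArg Fin.val (congrFun (congrArg Prod.fst hij) k)
    simp only [rel] at h3
    have h4 := rel1_mem p hi'.1 k
    have h5 := rel1_mem p hj'.1 k
    have h6 : rel1 p i k = rel1 p j k := by omega
    simp only [rel1] at h6
    omega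
  have h2 : i.2 = j.2 := by
    funext k
    have h3 := congrArg Fin.val (congrFun (congrArg Prod.snd hij) k)
    simp only [rel] at h3
    have h4 := rel2_mem b p hi'.2 k
    have h5 := rel2_mem b p hj'.2 k
    have h6 : rel2 b p i k = rel2 b p j k := by omega
    simp only [rel2] at h6
    have h7 : (iota i).1 = (iota j).1 := by
      simp only [iota, h1]
    rw [h7] at h6
    omega
  exact Prod.ext h1 h2

lemma ball2_finite (b : Form) (p : E × W) :
    (Ball2 b p).Finite ∧ (Ball2 b p).ncard ≤ Nat.card TT := by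
  have hf1 : (Ball2 b p).Finite := Set.Finite.of_finite_image (Set.toFinite _) (rel_injOn b p)
  refine ⟨hf1, ?_⟩
  rw [← (rel_injOn b p).ncard_image, ← Set.ncard_univ]
  exact Set.ncard_le_ncard (Set.subset_univ _) (Set.toFinite _)

theorem asd (hN : S_NET) : S_ASD := by
  intro b C hC
  refine ⟨Nat.card TT, fun R => ?_⟩
  set ρ : ℝ := 3 * R + 3 with hρ
  have hR : (0 : ℝ) ≤ R := Nat.cast_nonneg R
  have hρ0 : 0 < ρ := by positivity
  refine ⟨V, fun i => {v | d b (iota v) (dil ρ (iota i)) ≤ ρ}, ⌈C * (2 * ρ + 1)⌉₊, ?_, ?_, ?_⟩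
  · intro i x hx y hy
    have hx' : d b (iota x) (dil ρ (iota i)) ≤ ρ := hx
    have hy' : d b (iota y) (dil ρ (iota i)) ≤ ρ := hy
    have h1 : d b (iota x) (iota y) ≤ 2 * ρ := by
      have := d_tri b (iota x) (dil ρ (iota i)) (iota y)
      rw [d_comm b (dil ρ (iota i)) (iota y)] at this
      linarith
    have h2 := (hC.2 x y).2
    have h3 : ((X b).dist x y : ℝ) ≤ C * (2 * ρ + 1) := by
      refine h2.trans ?_
      have := hC.1
      gcongr
    have h4 : ((X b).dist x y : ℝ) ≤ (⌈C * (2 * ρ + 1)⌉₊ : ℝ) := h3.trans (Nat.le_ceil _)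
    exact_mod_cast h4
  · intro x
    obtain ⟨i, hi⟩ := hN b (dil (1 / ρ) (iota x))
    refine ⟨i, ?_⟩
    show d b (iota x) (dil ρ (iota i)) ≤ ρ
    have h1 : dil ρ (dil (1 / ρ) (iota x)) = iota x := by
      rw [dil_dil, mul_one_div_cancel hρ0.ne', dil_one]
    have h2 := d_dil b ρ (iota i) (dil (1 / ρ) (iota x))
    rw [h1, abs_of_pos hρ0] at h2
    rw [d_comm, h2]
    nlinarith
  · intro x
    have hsub : {i | ∃ y ∈ {v | d b (iota v) (dil ρ (iota i)) ≤ ρ}, (X b).dist x y ≤ R} ⊆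
        Ball2 b (dil (1 / ρ) (iota x)) := by
      rintro i ⟨y, hy, hxy⟩
      have hy' : d b (iota y) (dil ρ (iota i)) ≤ ρ := hy
      have h1 : d b (iota x) (iota y) ≤ 3 * R := by
        have := (hC.2 x y).1
        have h2 : ((X b).dist x y : ℝ) ≤ R := by exact_mod_cast hxy
        linarith
      have h3 : d b (iota x) (dil ρ (iota i)) ≤ 2 * ρ := by
        have := d_tri b (iota x) (iota y) (dil ρ (iota i))
        linarith
      show d b (dil (1 / ρ) (iota x)) (iota i) ≤ 2
      have h4 : dil (1 / ρ) (dil ρ (iota i)) = iota i := by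
        rw [dil_dil, one_div_mul_cancel hρ0.ne', dil_one]
      have h5 := d_dil b (1 / ρ) (iota x) (dil ρ (iota i))
      rw [h4, abs_of_pos (by positivity)] at h5
      rw [h5, one_div, inv_mul_le_iff₀ hρ0]
      linarith
    have hbf := ball2_finite b (dil (1 / ρ) (iota x))
    have h8 := (Set.ncard_le_ncard hsub hbf.1).trans hbf.2
    exact And.intro (hbf.1.subset hsub) (h8.trans (Nat.le_add_right _ 1))

end Pool.Agent.W312.CT
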