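import Pool.Agent.W317.CT.Stm

/-!
# CT-CHAIN: chains of unit steps
-/

set_option autoImplicit false

namespace Pool.Agent.W312.CT

open Pool.Agent.W317.CT

/-- a chain of `n` steps of length at most one -/
def Ch (b : Form) (n : ℕ) (g h : E × W) : Prop :=
  ∃ c : ℕ → E × W, c 0 = g ∧ c n = h ∧ ∀ i, i < n → d b (c i) (c (i + 1)) ≤ 1

lemma Ch.trans {b : Form} {n m : ℕ} {g h k : E × W} (h1 : Ch b n g h) (h2 : Ch b m h k) :
    Ch b (n + m) g k := by
  obtain ⟨c, c0, cn, hc⟩ := h1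
  obtain ⟨c', c0', cm', hc'⟩ := h2
  refine ⟨fun i => if i < n then c i else c' (i - n), ?_, ?_, ?_⟩
  · by_cases hn : 0 < n
    · simp only [hn, if_true, c0]
    · have : n = 0 := by omega
      subst this
      simp only [lt_irrefl, if_false, Nat.sub_self]
      rw [c0', ← cn, c0]
  · simp only [show ¬ (n + m < n) by omega, if_false, Nat.add_sub_cancel_left, cm']
  · intro i hi
    by_cases h3 : i + 1 < n
    · simp only [h3, show i < n by omega, if_true]
      exact hc i (by omega)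
    · by_cases h4 : i < n
      · have h5 : i + 1 = n := by omega
        simp only [h4, h3, if_true, if_false, show i + 1 - n = 0 by omega, c0']
        rw [← cn, ← h5]
        exact hc i h4
      · simp only [h4, h3, if_false, show i + 1 - n = (i - n) + 1 by omega]
        exact hc' (i - n) (by omega)

lemma Ch.refl (b : Form) (g : E × W) : Ch b 0 g g := ⟨fun _ => g, rfl, rfl, fun i hi => by omega⟩

lemma ch_horizontal (b : Form) (g : E × W) (x : E) :
    Ch b ⌈‖x‖⌉₊ g (mul b g (x, 0)) := by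
  set n := ⌈‖x‖⌉₊ with hn
  have hx : ‖x‖ ≤ n := Nat.le_ceil _
  rcases Nat.eq_zero_or_pos n with h0 | hpos
  · rw [h0] at hx ⊢
    have hx0 : x = 0 := norm_le_zero_iff.mp (by simpa using hx)
    subst hx0
    have : ((0, 0) : E × W) = 0 := rfl
    rw [this, mul_zero']
    exact Ch.refl b g
  · have hn' : (0 : ℝ) < n := by exact_mod_cast hpos
    refine ⟨fun i => mul b g (((i : ℝ) / n) • x, 0), ?_, ?_, ?_⟩
    · simp only [Nat.cast_zero, zero_div, zero_smul]
      have : ((0, 0) : E × W) = 0 := rfl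
      rw [this, mul_zero']
    · simp only [div_self hn'.ne', one_smul]
    · intro i _
      rw [d_mul_left, d_eq]
      simp only [map_smul, LinearMap.smul_apply, b.alt, smul_zero, sub_zero, norm_zero,
        Real.sqrt_zero]
      rw [← sub_smul, norm_smul]
      apply max_le _ zero_le_one
      have h1 : (((i + 1 : ℕ) : ℝ) / n - (i : ℝ) / n) = 1 / n := by
        push_cast
        ring
      rw [h1, norm_div, norm_one, Real.norm_natCast, div_mul_eq_mul_div, one_mul, div_le_one hn']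
      exact hx

lemma ch_comm (b : Form) (g : E × W) (x y : E) :
    Ch b (2 * (⌈‖x‖⌉₊ + ⌈‖y‖⌉₊)) g (mul b g (0, (2 : ℝ) • b.B x y)) := by
  have h1 := comm_eq b ((x, 0) : E × W) (y, 0)
  have h2 : inv ((x, 0) : E × W) = (-x, 0) := by simp [inv]
  have h3 : inv ((y, 0) : E × W) = (-y, 0) := by simp [inv]
  rw [h2, h3] at h1
  rw [← h1]
  have e1 := ch_horizontal b g x
  have e2 := ch_horizontal b (mul b g (x, 0)) y
  have e3 := ch_horizontal b (mul b (mul b g (x, 0)) (y, 0)) (-x)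
  have e4 := ch_horizontal b (mul b (mul b (mul b g (x, 0)) (y, 0)) (-x, 0)) (-y)
  rw [norm_neg] at e3 e4
  have e5 := ((e1.trans e2).trans e3).trans e4
  have h4 : mul b (mul b (mul b (mul b g (x, 0)) (y, 0)) (-x, 0)) (-y, 0) =
      mul b g (mul b (mul b (x, 0) (y, 0)) (mul b (-x, 0) (-y, 0))) := by
    simp only [mul_assoc']
  rw [h4] at e5
  have h5 : ⌈‖x‖⌉₊ + ⌈‖y‖⌉₊ + ⌈‖x‖⌉₊ + ⌈‖y‖⌉₊ = 2 * (⌈‖x‖⌉₊ + ⌈‖y‖⌉₊) := by ring
  rwa [h5] at e5

/-- central steps in the direction of `4 • B x y`, with unit vectors `x` and `y` -/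
lemma ch_central (b : Form) (g : E × W) (x y : E) (hx : ‖x‖ = 1) (hy : ‖y‖ = 1) (z : W)
    (hz : b.B x y = (1 / 4 : ℝ) • z) (a : ℝ) :
    Ch b (4 * ⌈Real.sqrt (2 * |a|)⌉₊) g (mul b g (0, a • z)) := by
  set s := Real.sqrt (2 * |a|) with hs
  have hs0 : 0 ≤ s := Real.sqrt_nonneg _
  have hss : s * s = 2 * |a| := Real.mul_self_sqrt (by positivity)
  obtain ⟨t, ht, hst⟩ : ∃ t : ℝ, |t| = s ∧ s * t = 2 * a := by
    rcases le_total 0 a with ha | ha
    · exact ⟨s, abs_of_nonneg hs0, by rw [hss, abs_of_nonneg ha]⟩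
    · refine ⟨-s, by rw [abs_neg, abs_of_nonneg hs0], ?_⟩
      rw [mul_neg, hss, abs_of_nonpos ha]
      ring
  have h1 := ch_comm b g (s • x) (t • y)
  rw [norm_smul, norm_smul, hx, hy, mul_one, mul_one, Real.norm_eq_abs, Real.norm_eq_abs, ht,
    abs_of_nonneg hs0] at h1
  have h2 : (2 : ℝ) • b.B (s • x) (t • y) = a • z := by
    simp only [map_smul, LinearMap.smul_apply, hz, smul_smul]
    congr 1
    linear_combination (1 / 2 : ℝ) * hst
  rw [h2] at h1
  have h3 : 2 * (⌈s⌉₊ + ⌈s⌉₊) = 4 * ⌈s⌉₊ := by ring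
  rwa [h3] at h1

theorem chain : S_CHAIN := by
  intro lam b _ _ hform
  refine ⟨17, by norm_num, ?_⟩
  intro g h
  set k := mul b (inv g) h with hk
  have hgk : mul b g k = h := by rw [hk, mul_inv_cancel_left']
  have hNk : N k = d b g h := rfl
  have hB01 : b.B (e 0) (e 1) = (1 / 4 : ℝ) • Z lam 0 := by
    rw [hform, Fin.sum_univ_four]
    simp [om, e, Pi.single_apply, Fin.ext_iff]
  have hB23 : b.B (e 2) (e 3) = (1 / 4 : ℝ) • Z lam 1 := by
    rw [hform, Fin.sum_univ_four]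
    simp [om, e, Pi.single_apply, Fin.ext_iff]
  have h1 := ch_horizontal b g k.1
  have h2 := ch_central b (mul b g (k.1, 0)) (e 0) (e 1) (norm_e 0) (norm_e 1) (Z lam 0) hB01 (k.2 0)
  have h3 := ch_central b (mul b (mul b g (k.1, 0)) (0, k.2 0 • Z lam 0)) (e 2) (e 3) (norm_e 2)
    (norm_e 3) (Z lam 1) hB23 (k.2 1)
  have h4 := (h1.trans h2).trans h3
  have h5 : mul b (mul b (mul b g (k.1, 0)) (0, k.2 0 • Z lam 0)) (0, k.2 1 • Z lam 1) = h := by
    rw [mul_assoc', mul_assoc', ← hgk]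
    congr 1
    simp only [mul, map_zero, add_zero, zero_add]
    refine Prod.ext rfl ?_
    funext j
    fin_cases j <;> simp [Z]
  rw [h5] at h4
  obtain ⟨c, c0, cn, hc⟩ := h4
  refine ⟨_, c, c0, cn, hc, ?_⟩
  rw [← hNk]
  have hN0 := N_nonneg k
  have e1 : (⌈‖k.1‖⌉₊ : ℝ) ≤ N k + 1 :=
    (Nat.ceil_lt_add_one (norm_nonneg _)).le.trans (by linarith [norm_fst_le_N k])
  have e2 : ∀ j : Fin 2, (⌈Real.sqrt (2 * |k.2 j|)⌉₊ : ℝ) ≤ 2 * N k + 1 := by
    intro j
    have e3 : Real.sqrt (2 * |k.2 j|) ≤ 2 * N k := by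
      rw [Real.sqrt_le_left (by linarith)]
      have e4 : |k.2 j| ≤ ‖k.2‖ := norm_le_pi_norm k.2 j
      have e5 := norm_snd_le_N k
      nlinarith
    exact (Nat.ceil_lt_add_one (Real.sqrt_nonneg _)).le.trans (by linarith)
  have e6 := e2 0
  have e7 := e2 1
  push_cast
  linarith

end Pool.Agent.W312.CT
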