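import Pool.Agent.W317.CT.Stm

/-!
# CT-HOM: a map compatible with the one-parameter groups is a homomorphism
-/

set_option autoImplicit false

namespace Pool.Agent.W312.CT

open Pool.Agent.W317.CT

theorem hom : S_HOM := by
  intro b b' F a hspan h0 hst
  let Good : E × W → Prop := fun g => ∀ y, F (mul b y g) = mul b' (F y) (F g)
  have good0 : Good 0 := by
    intro y
    rw [mul_zero', h0, mul_zero']
  have goodst : ∀ i t, Good (st i t) := by
    intro i t y
    have h1 := hst 0 i t
    rw [zero_mul', h0, zero_mul'] at h1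
    rw [hst y i t, h1]
  have goodmul : ∀ g h, Good g → Good h → Good (mul b g h) := by
    intro g h hg hh y
    rw [← mul_assoc', hh (mul b y g), hg y, hh g, mul_assoc']
  have goodcomm : ∀ (i j : Fin 8) (c : ℝ), Good (0, c • b.B (e i) (e j)) := by
    intro i j c
    have h1 := comm_eq b (st i (c / 2)) (st j 1)
    have h2 : (2 : ℝ) • b.B (st i (c / 2)).1 (st j 1).1 = c • b.B (e i) (e j) := by
      simp only [st, map_smul, LinearMap.smul_apply, smul_smul]
      congr 1
      ring
    rw [h2] at h1
    rw [← h1, inv_st, inv_st]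
    exact goodmul _ _ (goodmul _ _ (goodst _ _) (goodst _ _)) (goodmul _ _ (goodst _ _) (goodst _ _))
  have hcen : ∀ u v : W, mul b (0, u) (0, v) = (0, u + v) := by
    intro u v
    simp [mul]
  have goodcen : ∀ u : W, ∀ c : ℝ, Good (0, c • u) := by
    intro u
    have hu : u ∈ Submodule.span ℝ (Set.range fun ij : Fin 8 × Fin 8 => b.B (e ij.1) (e ij.2)) := by
      rw [hspan]
      trivial
    induction hu using Submodule.span_induction with
    | mem x hx =>
      obtain ⟨ij, rfl⟩ := hx
      exact fun c => goodcomm ij.1 ij.2 c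
    | zero =>
      intro c
      rw [smul_zero]
      exact good0
    | add x y _ _ hx hy =>
      intro c
      rw [smul_add, ← hcen]
      exact goodmul _ _ (hx c) (hy c)
    | smul r x _ hx =>
      intro c
      rw [smul_smul]
      exact hx _
  have goodE : ∀ x : E, ∃ u : W, Good (x, u) := by
    intro x
    rw [sum_e x]
    refine Finset.sum_induction _ (fun x => ∃ u : W, Good (x, u)) ?_ ⟨0, good0⟩ ?_
    · rintro x y ⟨u, hu⟩ ⟨v, hv⟩
      exact ⟨u + v + b.B x y, goodmul _ _ hu hv⟩
    · intro i _
      exact ⟨0, goodst i (x i)⟩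
  intro g h
  obtain ⟨u, hu⟩ := goodE h.1
  have h1 : mul b (h.1, u) (0, (1 : ℝ) • (h.2 - u)) = h := by
    simp only [mul, one_smul, map_zero, add_zero]
    exact Prod.ext rfl (by simp)
  have h2 : Good h := by
    rw [← h1]
    exact goodmul _ _ hu (goodcen _ _)
  exact h2 g

end Pool.Agent.W312.CT
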