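import Pool.Agent.W317.CT.Stm

/-!
# CT-MEAN: a right-invariant mean on the bounded functions
-/

set_option autoImplicit false

namespace Pool.Agent.W312.CT

open Pool.Agent.W317.CT Filter Finset Topology

section AV

variable {A : Type} [AddCommGroup A]

/-- average over the points `x, x + a, …, x + n • a` -/
noncomputable def op (n : ℕ) (a : A) (f : A → ℝ) : A → ℝ :=
  fun x => (∑ j ∈ range (n + 1), f (x + j • a)) / ((n : ℝ) + 1)

instance (n : ℕ) : LeftCommutative (op (A := A) n) := by
  constructor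
  intro a c f
  funext x
  simp only [op]
  congr 1
  rw [← Finset.sum_div, ← Finset.sum_div, Finset.sum_comm]
  congr 1
  refine Finset.sum_congr rfl fun j _ => Finset.sum_congr rfl fun k _ => ?_
  rw [add_right_comm]

/-- iterated averages -/
noncomputable def av (n : ℕ) (s : Multiset A) (f : A → ℝ) : A → ℝ := s.foldr (op n) f

lemma av_zero (n : ℕ) (f : A → ℝ) : av n 0 f = f := by simp [av]

lemma av_cons (n : ℕ) (a : A) (s : Multiset A) (f : A → ℝ) :
    av n (a ::ₘ s) f = op n a (av n s f) := by simp [av]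

lemma av_add (n : ℕ) (s : Multiset A) (f g : A → ℝ) :
    av n s (fun x => f x + g x) = fun x => av n s f x + av n s g x := by
  induction s using Multiset.induction_on with
  | empty => simp [av_zero]
  | cons a s ih =>
    rw [av_cons, ih, av_cons, av_cons]
    funext x
    simp only [op, Finset.sum_add_distrib, add_div]

lemma av_smul (n : ℕ) (s : Multiset A) (c : ℝ) (f : A → ℝ) :
    av n s (fun x => c * f x) = fun x => c * av n s f x := by
  induction s using Multiset.induction_on with
  | empty => simp [av_zero]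
  | cons a s ih =>
    rw [av_cons, ih, av_cons]
    funext x
    simp only [op, ← Finset.mul_sum, mul_div_assoc]

lemma av_one (n : ℕ) (s : Multiset A) : av n s (fun _ => (1 : ℝ)) = fun _ => 1 := by
  induction s using Multiset.induction_on with
  | empty => simp [av_zero]
  | cons a s ih =>
    rw [av_cons, ih]
    funext x
    simp only [op, Finset.sum_const, Finset.card_range, nsmul_eq_mul, mul_one, Nat.cast_add,
      Nat.cast_one]
    exact div_self (by positivity)

lemma av_nonneg (n : ℕ) (s : Multiset A) {f : A → ℝ} (hf : ∀ x, 0 ≤ f x) (x : A) :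
    0 ≤ av n s f x := by
  induction s using Multiset.induction_on generalizing x with
  | empty => simpa [av_zero] using hf x
  | cons a s ih =>
    rw [av_cons]
    simp only [op]
    exact div_nonneg (Finset.sum_nonneg fun j _ => ih _) (by positivity)

lemma av_bdd (n : ℕ) (s : Multiset A) {f : A → ℝ} {M : ℝ} (hf : ∀ x, |f x| ≤ M) (x : A) :
    |av n s f x| ≤ M := by
  induction s using Multiset.induction_on generalizing x with
  | empty => simpa [av_zero] using hf x
  | cons a s ih =>
    rw [av_cons]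
    simp only [op]
    have hn : (0 : ℝ) < (n : ℝ) + 1 := by positivity
    rw [abs_div, abs_of_pos hn, div_le_iff₀ hn]
    calc |∑ j ∈ range (n + 1), av n s f (x + j • a)|
        ≤ ∑ j ∈ range (n + 1), |av n s f (x + j • a)| := Finset.abs_sum_le_sum_abs _ _
      _ ≤ ∑ j ∈ range (n + 1), M := Finset.sum_le_sum fun j _ => ih _
      _ = M * ((n : ℝ) + 1) := by
        rw [Finset.sum_const, Finset.card_range, nsmul_eq_mul]
        push_cast
        ring

lemma av_shift (n : ℕ) (s : Multiset A) (f : A → ℝ) (a : A) :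
    av n s (fun x => f (x + a)) = fun x => av n s f (x + a) := by
  induction s using Multiset.induction_on with
  | empty => simp [av_zero]
  | cons c s ih =>
    rw [av_cons, ih, av_cons]
    funext x
    simp only [op]
    congr 1
    refine Finset.sum_congr rfl fun j _ => ?_
    rw [add_right_comm]

lemma av_diff [DecidableEq A] (n : ℕ) (F : Finset A) {f : A → ℝ} {M : ℝ} (hf : ∀ x, |f x| ≤ M)
    {a : A} (ha : a ∈ F) :
    |av n F.val (fun x => f (x + a)) 0 - av n F.val f 0| ≤ 2 * M / ((n : ℝ) + 1) := by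
  rw [av_shift]
  have hF : F.val = a ::ₘ (F.erase a).val := by
    rw [Finset.erase_val, Multiset.cons_erase ha]
  rw [hF, av_cons]
  set h := av n (F.erase a).val f with hh
  have hb : ∀ x, |h x| ≤ M := fun x => av_bdd n _ hf x
  simp only [op]
  rw [← sub_div, ← Finset.sum_sub_distrib]
  have hn : (0 : ℝ) < (n : ℝ) + 1 := by positivity
  rw [abs_div, abs_of_pos hn]
  apply div_le_div_of_nonneg_right _ hn.le
  have h1 : ∑ j ∈ range (n + 1), (h (0 + a + j • a) - h (0 + j • a)) =
      h ((n + 1) • a) - h (0 • a) := by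
    rw [← Finset.sum_range_sub (fun j => h (j • a)) (n + 1)]
    refine Finset.sum_congr rfl fun j _ => ?_
    rw [zero_add, zero_add, succ_nsmul, add_comm a]
  rw [h1]
  calc |h ((n + 1) • a) - h (0 • a)| ≤ |h ((n + 1) • a)| + |h (0 • a)| := abs_sub _ _
    _ ≤ 2 * M := by linarith [hb ((n + 1) • a), hb (0 • a)]

instance neBot_index (A : Type) : (atTop : Filter (Finset A × ℕ)).NeBot := by
  classical
  rw [← Filter.prod_atTop_atTop_eq]
  infer_instance

/-- the index filter -/
noncomputable def UU (A : Type) : Ultrafilter (Finset A × ℕ) := Ultrafilter.of atTop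

lemma UU_le (A : Type) : (UU A : Filter (Finset A × ℕ)) ≤ atTop := Ultrafilter.of_le _

lemma exists_lim {I : Type} (U : Ultrafilter I) (g : I → ℝ) {M : ℝ} (hg : ∀ i, |g i| ≤ M) :
    ∃ l, Tendsto g U (𝓝 l) := by
  have h1 : (U.map g : Filter ℝ) ≤ 𝓟 (Set.Icc (-M) M) := by
    rw [Ultrafilter.coe_map, le_principal_iff, Filter.mem_map]
    exact Filter.univ_mem' fun i => abs_le.mp (hg i)
  obtain ⟨l, _, hl⟩ := isCompact_Icc.ultrafilter_le_nhds (U.map g) h1
  exact ⟨l, hl⟩

/-- the mean on an abelian group -/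
noncomputable def mu (f : A → ℝ) : ℝ :=
  limUnder (UU A : Filter (Finset A × ℕ)) fun i => av i.2 i.1.val f 0

lemma mu_tendsto {f : A → ℝ} {M : ℝ} (hf : ∀ x, |f x| ≤ M) :
    Tendsto (fun i : Finset A × ℕ => av i.2 i.1.val f 0) (UU A : Filter (Finset A × ℕ))
      (𝓝 (mu f)) := by
  obtain ⟨l, hl⟩ := exists_lim (UU A) (fun i => av i.2 i.1.val f 0)
    (fun i => av_bdd i.2 i.1.val hf 0)
  rw [mu, hl.limUnder_eq]
  exact hl

lemma mu_add {f g : A → ℝ} {M M' : ℝ} (hf : ∀ x, |f x| ≤ M) (hg : ∀ x, |g x| ≤ M') :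
    mu (fun x => f x + g x) = mu f + mu g := by
  have h := (mu_tendsto hf).add (mu_tendsto hg)
  refine Tendsto.limUnder_eq (h.congr fun i => ?_)
  rw [av_add]

lemma mu_smul (c : ℝ) {f : A → ℝ} {M : ℝ} (hf : ∀ x, |f x| ≤ M) :
    mu (fun x => c * f x) = c * mu f := by
  have h := (mu_tendsto hf).const_mul c
  refine Tendsto.limUnder_eq (h.congr fun i => ?_)
  rw [av_smul]

lemma mu_one : mu (fun _ : A => (1 : ℝ)) = 1 := by
  refine Tendsto.limUnder_eq ?_
  simp only [av_one]
  exact tendsto_const_nhds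

lemma mu_nonneg {f : A → ℝ} {M : ℝ} (hf : ∀ x, |f x| ≤ M) (h0 : ∀ x, 0 ≤ f x) : 0 ≤ mu f :=
  ge_of_tendsto' (mu_tendsto hf) fun i => av_nonneg i.2 i.1.val h0 0

lemma mu_bdd {f : A → ℝ} {M : ℝ} (hf : ∀ x, |f x| ≤ M) : |mu f| ≤ M :=
  le_of_tendsto' (mu_tendsto hf).abs fun i => av_bdd i.2 i.1.val hf 0

lemma mu_shift {f : A → ℝ} {M : ℝ} (hf : ∀ x, |f x| ≤ M) (a : A) :
    mu (fun x => f (x + a)) = mu f := by
  classical
  have h1 := (mu_tendsto (f := fun x => f (x + a)) (fun x => hf (x + a))).sub (mu_tendsto hf)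
  have h2 : Tendsto (fun i : Finset A × ℕ => av i.2 i.1.val (fun x => f (x + a)) 0 -
      av i.2 i.1.val f 0) (UU A : Filter (Finset A × ℕ)) (𝓝 0) := by
    have h3 : Tendsto (fun i : Finset A × ℕ => 2 * M / ((i.2 : ℝ) + 1)) atTop (𝓝 0) := by
      have h4 : Tendsto (fun n : ℕ => 2 * M / ((n : ℝ) + 1)) atTop (𝓝 0) :=
        tendsto_const_nhds.div_atTop (tendsto_natCast_atTop_atTop.atTop_add tendsto_const_nhds)
      have h5 : Tendsto (Prod.snd : Finset A × ℕ → ℕ) atTop atTop := by
        rw [← Filter.prod_atTop_atTop_eq]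
        exact tendsto_snd
      exact h4.comp h5
    refine squeeze_zero_norm' ?_ (h3.mono_left (UU_le A))
    refine UU_le A ?_
    filter_upwards [eventually_ge_atTop (({a}, 0) : Finset A × ℕ)] with i hi
    rw [Real.norm_eq_abs]
    exact av_diff i.2 i.1 hf (hi.1 (by simp))
  have h6 := tendsto_nhds_unique h1 h2
  linarith

end AV

theorem mean : S_MEAN := by
  intro b
  refine ⟨fun f => mu fun x : E => mu fun u : W => f (x, u), ?_⟩
  constructor
  · intro f g hf hg
    obtain ⟨M, hM⟩ := hf
    obtain ⟨M', hM'⟩ := hg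
    have h1 : ∀ x : E, mu (fun u : W => f (x, u) + g (x, u)) =
        mu (fun u : W => f (x, u)) + mu (fun u : W => g (x, u)) := fun x =>
      mu_add (fun u => hM _) (fun u => hM' _)
    simp only [h1]
    exact mu_add (fun x => mu_bdd fun u => hM _) (fun x => mu_bdd fun u => hM' _)
  · intro c f hf
    obtain ⟨M, hM⟩ := hf
    have h1 : ∀ x : E, mu (fun u : W => c * f (x, u)) = c * mu (fun u : W => f (x, u)) :=
      fun x => mu_smul c (fun u => hM _)
    simp only [h1]
    exact mu_smul c (fun x => mu_bdd fun u => hM _)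
  · intro f hf h0
    obtain ⟨M, hM⟩ := hf
    exact mu_nonneg (fun x => mu_bdd fun u => hM _) fun x => mu_nonneg (fun u => hM _) fun u => h0 _
  · simp only [mu_one]
  · intro f hf h
    obtain ⟨M, hM⟩ := hf
    have h1 : ∀ x : E, mu (fun u : W => f (mul b (x, u) h)) =
        mu (fun u : W => f (x + h.1, u)) := by
      intro x
      rw [← mu_shift (f := fun u : W => f (x + h.1, u)) (fun u => hM _) (h.2 + b.B x h.1)]
      congr 1
      funext u
      simp only [mul, add_assoc]
    simp only [h1]
    exact mu_shift (f := fun x : E => mu (fun u : W => f (x, u)))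
      (fun x => mu_bdd fun u => hM _) h.1

end Pool.Agent.W312.CT
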